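import Mathlib

/-! Projections onto eigenspaces, and block split forms. -/

set_option autoImplicit false

namespace Pool.Agent.Helper9.TD

open Polynomial Module

variable {K : Type*} [Field K] {V : Type*} [AddCommGroup V] [Module K V]

/-- `a 0, …, a d` are the distinct eigenvalues of the diagonalizable map `A`, listed in such a way
that `B` maps each eigenspace of `A` into the sum of this eigenspace and its neighbours. -/
def TDOrdering (A B : Module.End K V) (d : ℕ) (a : ℕ → K) : Prop :=
  (∀ i ≤ d, ∀ j ≤ d, a i = a j → i = j) ∧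
  (∀ i ≤ d, A.HasEigenvalue (a i)) ∧
  (⨆ (i : ℕ) (_ : i ≤ d), A.eigenspace (a i)) = ⊤ ∧
  ∀ i ≤ d, (A.eigenspace (a i)).map B ≤
    ⨆ (j : ℕ) (_ : j ≤ d ∧ j ≤ i + 1 ∧ i ≤ j + 1), A.eigenspace (a j)

/-- Tridiagonal pairs. -/
structure TDPair (A B : Module.End K V) : Prop where
  ordA : ∃ (d : ℕ) (a : ℕ → K), TDOrdering A B d a
  ordB : ∃ (e : ℕ) (b : ℕ → K), TDOrdering B A e b
  irred : ∀ W : Submodule K V, (∀ w ∈ W, A w ∈ W) → (∀ w ∈ W, B w ∈ W) → W = ⊥ ∨ W = ⊤

/-- A complete family of projections onto eigenspaces of `A`. -/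
structure Idem (A : Module.End K V) (d : ℕ) (a : ℕ → K) (P : ℕ → Module.End K V) : Prop where
  inj : ∀ i ≤ d, ∀ j ≤ d, a i = a j → i = j
  sum : ∀ v, ∑ i ∈ Finset.range (d + 1), P i v = v
  orth : ∀ i ≤ d, ∀ j ≤ d, ∀ v, P i (P j v) = if i = j then P j v else 0
  eig : ∀ i ≤ d, ∀ v, A (P i v) = a i • P i v

theorem aeval_eig (A : Module.End K V) (g : K[X]) (μ : K) (v : V) (h : A v = μ • v) :
    aeval A g v = g.eval μ • v := by
  induction g using Polynomial.induction_on' with
  | add p q hp hq => simp only [map_add, LinearMap.add_apply, hp, hq, eval_add, add_smul]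
  | monomial n c =>
    rw [aeval_monomial, eval_monomial]
    have hn : (A ^ n) v = μ ^ n • v := by
      induction n with
      | zero => simp
      | succ n ih => rw [pow_succ', Module.End.mul_apply, ih, map_smul, h, smul_smul, pow_succ]
    rw [Module.End.mul_apply, hn]
    rw [Module.algebraMap_end_apply, mul_smul]

/-- Lagrange projections. -/
noncomputable def proj (A : Module.End K V) (s : Finset K) (μ : K) : Module.End K V :=
  open Classical in aeval A (Lagrange.basis s id μ)

theorem proj_eig_self (A : Module.End K V) (s : Finset K) (μ : K) (hμ : μ ∈ s) (v : V)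
    (h : A v = μ • v) : proj A s μ v = v := by
  classical
  rw [proj, aeval_eig A _ μ v h]
  have := Lagrange.eval_basis_self (s := s) (v := id) (i := μ) (Set.injOn_id _) hμ
  simp only [id] at this
  rw [this, one_smul]

theorem proj_eig_ne (A : Module.End K V) (s : Finset K) (μ ν : K) (hν : ν ∈ s) (hne : μ ≠ ν) (v : V)
    (h : A v = ν • v) : proj A s μ v = 0 := by
  classical
  rw [proj, aeval_eig A _ ν v h]
  have := Lagrange.eval_basis_of_ne (s := s) (v := id) (i := μ) (j := ν) hne hν
  simp only [id] at this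
  rw [this, zero_smul]

theorem proj_sum (A : Module.End K V) (s : Finset K) (hs : s.Nonempty) (v : V) :
    ∑ μ ∈ s, proj A s μ v = v := by
  classical
  have := Lagrange.sum_basis (s := s) (v := id) (Set.injOn_id _) hs
  have h2 := congrArg (fun g => aeval A g v) this
  simp only [map_sum, map_one, LinearMap.sum_apply, Module.End.one_apply] at h2
  exact h2

theorem proj_mem (A : Module.End K V) (s : Finset K) (hn : aeval A (∏ μ ∈ s, (X - C μ)) = 0)
    (μ : K) (hμ : μ ∈ s) (v : V) : A (proj A s μ v) = μ • proj A s μ v := by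
  classical
  have h1 : ∃ q : K[X], (X - C μ) * Lagrange.basis s id μ = q * ∏ ν ∈ s, (X - C ν) := by
    refine ⟨∏ j ∈ s.erase μ, C ((μ - j)⁻¹), ?_⟩
    rw [Lagrange.basis, ← Finset.mul_prod_erase s (fun ν => X - C ν) hμ]
    simp only [Lagrange.basisDivisor, id, Finset.prod_mul_distrib]
    ring
  obtain ⟨q, hq⟩ := h1
  have h2 := congrArg (fun g => aeval A g v) hq
  simp only [map_mul, hn, mul_zero, LinearMap.zero_apply, map_sub, aeval_X, aeval_C,
    Module.End.mul_apply, LinearMap.sub_apply, Module.algebraMap_end_apply] at h2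
  rw [proj]
  exact sub_eq_zero.mp h2

/-- the finite set of the values `a 0, …, a d` -/
noncomputable def vals (d : ℕ) (a : ℕ → K) : Finset K :=
  open Classical in (Finset.range (d + 1)).image a

theorem mem_vals (d : ℕ) (a : ℕ → K) (i : ℕ) (hi : i ≤ d) : a i ∈ vals d a := by
  classical
  exact Finset.mem_image.mpr ⟨i, Finset.mem_range.mpr (by omega), rfl⟩

theorem idem_of_nodal (A : Module.End K V) (d : ℕ) (a : ℕ → K)
    (inj : ∀ i ≤ d, ∀ j ≤ d, a i = a j → i = j)
    (hn : aeval A (∏ μ ∈ vals d a, (X - C μ)) = 0) :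
    Idem A d a (fun i => proj A (vals d a) (a i)) where
  inj := inj
  sum := by
    classical
    intro v
    have h := proj_sum A (vals d a) ⟨a 0, mem_vals d a 0 (by omega)⟩ v
    rw [vals, Finset.sum_image] at h
    · exact h
    · intro i hi j hj hij
      simp only [Finset.coe_range, Set.mem_Iio] at hi hj
      exact inj i (by omega) j (by omega) hij
  orth := by
    intro i hi j hj v
    have he := proj_mem A (vals d a) hn (a j) (mem_vals d a j hj) v
    split_ifs with h
    · subst h
      exact proj_eig_self A _ _ (mem_vals d a i hi) _ he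
    · exact proj_eig_ne A _ _ _ (mem_vals d a j hj) (fun h' => h (inj i hi j hj h')) _ he
  eig := by
    intro i hi v
    exact proj_mem A (vals d a) hn (a i) (mem_vals d a i hi) v

theorem nodal_of_sup (A : Module.End K V) (d : ℕ) (a : ℕ → K)
    (h : (⨆ (i : ℕ) (_ : i ≤ d), A.eigenspace (a i)) = ⊤) :
    aeval A (∏ μ ∈ vals d a, (X - C μ)) = 0 := by
  classical
  have hle : (⨆ (i : ℕ) (_ : i ≤ d), A.eigenspace (a i)) ≤
      LinearMap.ker (aeval A (∏ μ ∈ vals d a, (X - C μ))) := by
    refine iSup_le fun i => iSup_le fun hi => ?_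
    intro v hv
    rw [Module.End.mem_eigenspace_iff] at hv
    rw [LinearMap.mem_ker, aeval_eig A _ _ v hv, eval_prod,
      Finset.prod_eq_zero (mem_vals d a i hi) (by simp), zero_smul]
  rw [h] at hle
  ext v
  exact hle (Submodule.mem_top)

theorem TDOrdering.idem {A B : Module.End K V} {d : ℕ} {a : ℕ → K} (h : TDOrdering A B d a) :
    Idem A d a (fun i => proj A (vals d a) (a i)) :=
  idem_of_nodal A d a h.1 (nodal_of_sup A d a h.2.2.1)

theorem TDOrdering.tri {A B : Module.End K V} {d : ℕ} {a : ℕ → K} (h : TDOrdering A B d a)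
    (i : ℕ) (hi : i ≤ d) (j : ℕ) (hj : j ≤ d) (hij : i + 1 < j ∨ j + 1 < i) (v : V) :
    proj A (vals d a) (a j) (B (proj A (vals d a) (a i) v)) = 0 := by
  have hn := nodal_of_sup A d a h.2.2.1
  have h1 : B (proj A (vals d a) (a i) v) ∈
      ⨆ (j : ℕ) (_ : j ≤ d ∧ j ≤ i + 1 ∧ i ≤ j + 1), A.eigenspace (a j) := by
    apply h.2.2.2 i hi
    refine Submodule.mem_map_of_mem ?_
    rw [Module.End.mem_eigenspace_iff]
    exact proj_mem A _ hn _ (mem_vals d a i hi) v
  have hle : (⨆ (j : ℕ) (_ : j ≤ d ∧ j ≤ i + 1 ∧ i ≤ j + 1), A.eigenspace (a j)) ≤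
      LinearMap.ker (proj A (vals d a) (a j)) := by
    refine iSup_le fun k => iSup_le fun hk => ?_
    intro w hw
    rw [Module.End.mem_eigenspace_iff] at hw
    rw [LinearMap.mem_ker]
    refine proj_eig_ne A _ _ _ (mem_vals d a k hk.1) ?_ w hw
    intro hjk
    have := h.1 j hj k hk.1 hjk
    omega
  exact hle h1

theorem Idem.comm {A : Module.End K V} {d : ℕ} {a : ℕ → K} {P : ℕ → Module.End K V}
    (h : Idem A d a P) (i : ℕ) (hi : i ≤ d) (v : V) : P i (A v) = a i • P i v := by
  have h1 : P i (A v) = P i (A (∑ j ∈ Finset.range (d + 1), P j v)) := by rw [h.sum]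
  rw [h1, map_sum, map_sum]
  have h2 : ∀ j ∈ Finset.range (d + 1), P i (A (P j v)) = if i = j then a i • P i v else 0 := by
    intro j hj
    have hj' : j ≤ d := by simpa [Nat.lt_succ_iff] using hj
    rw [h.eig j hj', map_smul, h.orth i hi j hj']
    split_ifs with hh
    · subst hh; rfl
    · rw [smul_zero]
  rw [Finset.sum_congr rfl h2, Finset.sum_ite_eq, if_pos (Finset.mem_range.mpr (by omega))]

theorem Idem.eq_zero {A : Module.End K V} {d : ℕ} {a : ℕ → K} {P : ℕ → Module.End K V}
    (h : Idem A d a P) (v : V) (hv : ∀ i ≤ d, P i v = 0) : v = 0 := by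
  rw [← h.sum v]
  exact Finset.sum_eq_zero fun i hi => hv i (by simpa [Nat.lt_succ_iff] using hi)

theorem Idem.mem {A : Module.End K V} {d : ℕ} {a : ℕ → K} {P : ℕ → Module.End K V}
    (h : Idem A d a P) (i : ℕ) (hi : i ≤ d) (v : V) (hv : A v = a i • v) : P i v = v := by
  have h2 : ∀ j ∈ Finset.range (d + 1), P j v = if i = j then P i v else 0 := by
    intro j hj
    have hj' : j ≤ d := by simpa [Nat.lt_succ_iff] using hj
    split_ifs with hh
    · subst hh; rfl
    · have h3 := h.comm j hj' v
      rw [hv, map_smul] at h3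
      have h4 : (a i - a j) • P j v = 0 := by rw [sub_smul, h3, sub_self]
      rcases smul_eq_zero.mp h4 with h5 | h5
      · exact absurd (h.inj i hi j hj' (sub_eq_zero.mp h5)) hh
      · exact h5
  conv_rhs => rw [← h.sum v]
  rw [Finset.sum_congr rfl h2, Finset.sum_ite_eq, if_pos (Finset.mem_range.mpr (by omega))]

theorem Idem.rev {A : Module.End K V} {d : ℕ} {a : ℕ → K} {P : ℕ → Module.End K V}
    (h : Idem A d a P) : Idem A d (fun i => a (d - i)) (fun i => P (d - i)) where
  inj := by
    intro i hi j hj hij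
    have := h.inj (d - i) (by omega) (d - j) (by omega) hij
    omega
  sum := by
    intro v
    have := Finset.sum_range_reflect (fun i => P i v) (d + 1)
    simp only [Nat.add_sub_cancel] at this
    rw [this]
    exact h.sum v
  orth := by
    intro i hi j hj v
    rw [h.orth (d - i) (by omega) (d - j) (by omega)]
    by_cases hh : i = j
    · subst hh; simp
    · rw [if_neg hh, if_neg (by omega)]
  eig := by
    intro i hi v
    exact h.eig (d - i) (by omega) v

/-- Converse: from projections back to orderings. -/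
theorem tdOrdering_of {A B : Module.End K V} {d : ℕ} {a : ℕ → K} {P : ℕ → Module.End K V}
    (h : Idem A d a P) (hne : ∀ i ≤ d, ∃ v, P i v ≠ 0)
    (htri : ∀ i ≤ d, ∀ j ≤ d, (i + 1 < j ∨ j + 1 < i) → ∀ v, P j (B (P i v)) = 0) :
    TDOrdering A B d a := by
  refine ⟨h.inj, ?_, ?_, ?_⟩
  · intro i hi
    obtain ⟨v, hv⟩ := hne i hi
    exact Module.End.hasEigenvalue_of_hasEigenvector (x := P i v)
      ⟨by rw [Module.End.mem_eigenspace_iff]; exact h.eig i hi v, hv⟩
  · rw [eq_top_iff]
    intro v _
    rw [← h.sum v]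
    refine Submodule.sum_mem _ ?_
    intro i hi
    have hi' : i ≤ d := by simpa [Nat.lt_succ_iff] using hi
    refine Submodule.mem_iSup_of_mem i (Submodule.mem_iSup_of_mem hi' ?_)
    rw [Module.End.mem_eigenspace_iff]
    exact h.eig i hi' v
  · intro i hi
    rintro _ ⟨v, hv, rfl⟩
    have hv' := h.mem i hi v (by simpa [Module.End.mem_eigenspace_iff] using hv)
    rw [← h.sum (B v)]
    refine Submodule.sum_mem _ ?_
    intro j hj
    have hj' : j ≤ d := by simpa [Nat.lt_succ_iff] using hj
    by_cases hc : j ≤ i + 1 ∧ i ≤ j + 1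
    · refine Submodule.mem_iSup_of_mem j (Submodule.mem_iSup_of_mem ⟨hj', hc⟩ ?_)
      rw [Module.End.mem_eigenspace_iff]
      exact h.eig j hj' _
    · have : P j (B v) = 0 := by
        rw [← hv']
        exact htri i hi j hj' (by omega) v
      rw [this]
      exact Submodule.zero_mem _

end Pool.Agent.Helper9.TD
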