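import Pool.Agent.H370.G.R_seed8.Helper9.TDBasic

set_option autoImplicit false

namespace Pool.Agent.Helper9.TD

open Polynomial Module

variable {K : Type*} [Field K] {V : Type*} [AddCommGroup V] [Module K V]

/-- A tridiagonal system: complete families of projections with the tridiagonal conditions. -/
structure Sys (A B : Module.End K V) (d : ℕ) (a : ℕ → K) (P : ℕ → Module.End K V)
    (δ : ℕ) (b : ℕ → K) (Q : ℕ → Module.End K V) : Prop where
  iA : Idem A d a P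
  iB : Idem B δ b Q
  triA : ∀ i ≤ d, ∀ j ≤ d, (i + 1 < j ∨ j + 1 < i) → ∀ v, P j (B (P i v)) = 0
  triB : ∀ i ≤ δ, ∀ j ≤ δ, (i + 1 < j ∨ j + 1 < i) → ∀ v, Q j (A (Q i v)) = 0
  irr : ∀ W : Submodule K V, (∀ w ∈ W, A w ∈ W) → (∀ w ∈ W, B w ∈ W) → W = ⊥ ∨ W = ⊤
  neA : ∀ i ≤ d, ∃ v, P i v ≠ 0
  neB : ∀ i ≤ δ, ∃ v, Q i v ≠ 0

theorem Sys.revA {A B : Module.End K V} {d : ℕ} {a : ℕ → K} {P : ℕ → Module.End K V}
    {δ : ℕ} {b : ℕ → K} {Q : ℕ → Module.End K V} (h : Sys A B d a P δ b Q) :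
    Sys A B d (fun i => a (d - i)) (fun i => P (d - i)) δ b Q where
  iA := h.iA.rev
  iB := h.iB
  triA := fun i hi j hj hij v => h.triA (d - i) (by omega) (d - j) (by omega) (by omega) v
  triB := h.triB
  irr := h.irr
  neA := fun i hi => h.neA (d - i) (by omega)
  neB := h.neB

theorem Sys.revB {A B : Module.End K V} {d : ℕ} {a : ℕ → K} {P : ℕ → Module.End K V}
    {δ : ℕ} {b : ℕ → K} {Q : ℕ → Module.End K V} (h : Sys A B d a P δ b Q) :
    Sys A B d a P δ (fun i => b (δ - i)) (fun i => Q (δ - i)) where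
  iA := h.iA
  iB := h.iB.rev
  triA := h.triA
  triB := fun i hi j hj hij v => h.triB (δ - i) (by omega) (δ - j) (by omega) (by omega) v
  irr := h.irr
  neA := h.neA
  neB := fun i hi => h.neB (δ - i) (by omega)

theorem Sys.swap {A B : Module.End K V} {d : ℕ} {a : ℕ → K} {P : ℕ → Module.End K V}
    {δ : ℕ} {b : ℕ → K} {Q : ℕ → Module.End K V} (h : Sys A B d a P δ b Q) :
    Sys B A δ b Q d a P where
  iA := h.iB
  iB := h.iA
  triA := h.triB
  triB := h.triA
  irr := fun W h1 h2 => h.irr W h2 h1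
  neA := h.neB
  neB := h.neA

/-- the space `V*_{≤ i} ∩ V_{≥ j}` -/
def NN (d : ℕ) (P : ℕ → Module.End K V) (δ : ℕ) (Q : ℕ → Module.End K V) (i j : ℕ) :
    Submodule K V where
  carrier := {v | (∀ k ≤ δ, i < k → Q k v = 0) ∧ (∀ k ≤ d, k < j → P k v = 0)}
  add_mem' := by
    rintro x y ⟨h1, h2⟩ ⟨h3, h4⟩
    refine ⟨fun k hk hik => ?_, fun k hk hik => ?_⟩
    · rw [map_add, h1 k hk hik, h3 k hk hik, add_zero]
    · rw [map_add, h2 k hk hik, h4 k hk hik, add_zero]
  zero_mem' := ⟨fun k _ _ => map_zero _, fun k _ _ => map_zero _⟩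
  smul_mem' := by
    rintro c x ⟨h1, h2⟩
    refine ⟨fun k hk hik => ?_, fun k hk hik => ?_⟩
    · rw [map_smul, h1 k hk hik, smul_zero]
    · rw [map_smul, h2 k hk hik, smul_zero]

theorem mem_NN {d : ℕ} {P : ℕ → Module.End K V} {δ : ℕ} {Q : ℕ → Module.End K V} {i j : ℕ} {v : V} :
    v ∈ NN d P δ Q i j ↔ (∀ k ≤ δ, i < k → Q k v = 0) ∧ (∀ k ≤ d, k < j → P k v = 0) := Iff.rfl

/-- If `Q k v = 0` for `k > i` then `Q k (A v) = 0` for `k > i + 1`. -/
theorem up_lemma {A B : Module.End K V} {δ : ℕ} {b : ℕ → K} {Q : ℕ → Module.End K V}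
    (iB : Idem B δ b Q)
    (triB : ∀ i ≤ δ, ∀ j ≤ δ, (i + 1 < j ∨ j + 1 < i) → ∀ v, Q j (A (Q i v)) = 0)
    (i : ℕ) (v : V) (hv : ∀ k ≤ δ, i < k → Q k v = 0) (k : ℕ) (hk : k ≤ δ) (hik : i + 1 < k) :
    Q k (A v) = 0 := by
  rw [← iB.sum v, map_sum, map_sum]
  refine Finset.sum_eq_zero fun l hl => ?_
  have hl' : l ≤ δ := by simpa [Nat.lt_succ_iff] using hl
  by_cases h : i < l
  · rw [hv l hl' h, map_zero, map_zero]
  · exact triB l hl' k hk (by omega) v

/-- If `P k v = 0` for `k < j` then `P k (B v) = 0` for `k + 1 < j`. -/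
theorem down_lemma {A B : Module.End K V} {d : ℕ} {a : ℕ → K} {P : ℕ → Module.End K V}
    (iA : Idem A d a P)
    (triA : ∀ i ≤ d, ∀ j ≤ d, (i + 1 < j ∨ j + 1 < i) → ∀ v, P j (B (P i v)) = 0)
    (j : ℕ) (v : V) (hv : ∀ k ≤ d, k < j → P k v = 0) (k : ℕ) (hk : k ≤ d) (hkj : k + 1 < j) :
    P k (B v) = 0 := by
  rw [← iA.sum v, map_sum, map_sum]
  refine Finset.sum_eq_zero fun l hl => ?_
  have hl' : l ≤ d := by simpa [Nat.lt_succ_iff] using hl
  by_cases h : l < j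
  · rw [hv l hl' h, map_zero, map_zero]
  · exact triA l hl' k hk (by omega) v

theorem Sys.NN_A {A B : Module.End K V} {d : ℕ} {a : ℕ → K} {P : ℕ → Module.End K V}
    {δ : ℕ} {b : ℕ → K} {Q : ℕ → Module.End K V} (h : Sys A B d a P δ b Q) (i j : ℕ) (v : V)
    (hv : v ∈ NN d P δ Q i j) : A v - a j • v ∈ NN d P δ Q (i + 1) (j + 1) := by
  rw [mem_NN] at hv ⊢
  refine ⟨fun k hk hik => ?_, fun k hk hkj => ?_⟩
  · rw [map_sub, map_smul, hv.1 k hk (by omega), up_lemma h.iB h.triB i v hv.1 k hk hik, smul_zero,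
      sub_zero]
  · rw [map_sub, map_smul, h.iA.comm k hk]
    by_cases hkj' : k = j
    · rw [hkj', sub_self]
    · rw [hv.2 k hk (by omega), smul_zero, smul_zero, sub_zero]

theorem Sys.NN_B {A B : Module.End K V} {d : ℕ} {a : ℕ → K} {P : ℕ → Module.End K V}
    {δ : ℕ} {b : ℕ → K} {Q : ℕ → Module.End K V} (h : Sys A B d a P δ b Q) (i j : ℕ) (v : V)
    (hv : v ∈ NN d P δ Q (i + 1) (j + 1)) : B v - b (i + 1) • v ∈ NN d P δ Q i j := by
  rw [mem_NN] at hv ⊢
  refine ⟨fun k hk hik => ?_, fun k hk hkj => ?_⟩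
  · rw [map_sub, map_smul, h.iB.comm k hk]
    by_cases hkj' : k = i + 1
    · rw [hkj', sub_self]
    · rw [hv.1 k hk (by omega), smul_zero, smul_zero, sub_zero]
  · rw [map_sub, map_smul, hv.2 k hk (by omega), down_lemma h.iA h.triA (j + 1) v hv.2 k hk (by omega),
      smul_zero, sub_zero]

theorem Sys.NN_B0 {A B : Module.End K V} {d : ℕ} {a : ℕ → K} {P : ℕ → Module.End K V}
    {δ : ℕ} {b : ℕ → K} {Q : ℕ → Module.End K V} (h : Sys A B d a P δ b Q) (j : ℕ) (v : V)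
    (hv : v ∈ NN d P δ Q 0 j) : B v = b 0 • v := by
  rw [mem_NN] at hv
  have h1 : Q 0 v = v := by
    conv_rhs => rw [← h.iB.sum v]
    rw [Finset.sum_eq_single 0]
    · intro k hk hk0
      exact hv.1 k (by simpa [Nat.lt_succ_iff] using hk) (by omega)
    · intro h0; simp at h0
  have h2 := h.iB.eig 0 (by omega) v
  rwa [h1] at h2

theorem Sys.disj {A B : Module.End K V} {d : ℕ} {a : ℕ → K} {P : ℕ → Module.End K V}
    {δ : ℕ} {b : ℕ → K} {Q : ℕ → Module.End K V} (h : Sys A B d a P δ b Q) (i j : ℕ) (hij : i < j)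
    (v : V) (hv : v ∈ NN d P δ Q i j) : v = 0 := by
  obtain ⟨r, hr, rfl⟩ : ∃ r, 0 < r ∧ j = i + r := ⟨j - i, by omega, by omega⟩
  let W : Submodule K V := ⨆ i : ℕ, NN d P δ Q i (i + r)
  have hmem : ∀ i, NN d P δ Q i (i + r) ≤ W := fun i => le_iSup (fun i => NN d P δ Q i (i + r)) i
  have hWA : ∀ w ∈ W, A w ∈ W := by
    intro w hw
    have : W ≤ W.comap A := by
      refine iSup_le fun i => ?_
      intro x hx
      rw [Submodule.mem_comap]
      have h1 := h.NN_A i (i + r) x hx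
      have h2 : A x = (A x - a (i + r) • x) + a (i + r) • x := by abel
      rw [h2]
      refine W.add_mem (hmem (i + 1) ?_) (W.smul_mem _ (hmem i hx))
      have h3 : i + 1 + r = i + r + 1 := by omega
      rw [h3]
      exact h1
    exact this hw
  have hWB : ∀ w ∈ W, B w ∈ W := by
    intro w hw
    have : W ≤ W.comap B := by
      refine iSup_le fun i => ?_
      intro x hx
      rw [Submodule.mem_comap]
      rcases i with _ | i
      · rw [h.NN_B0 _ x hx]
        exact W.smul_mem _ (hmem 0 hx)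
      · have hx' : x ∈ NN d P δ Q (i + 1) (i + r + 1) := by
          have h3 : i + 1 + r = i + r + 1 := by omega
          rwa [h3] at hx
        have h1 := h.NN_B i (i + r) x hx'
        have h2 : B x = (B x - b (i + 1) • x) + b (i + 1) • x := by abel
        rw [h2]
        exact W.add_mem (hmem i h1) (W.smul_mem _ (hmem (i + 1) hx))
    exact this hw
  rcases h.irr W hWA hWB with h1 | h1
  · have := hmem i hv
    rw [h1, Submodule.mem_bot] at this
    exact this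
  · exfalso
    have h2 : W ≤ LinearMap.ker (P 0) := by
      refine iSup_le fun i => ?_
      intro x hx
      rw [LinearMap.mem_ker]
      exact hx.2 0 (by omega) (by omega)
    rw [h1] at h2
    obtain ⟨v, hv⟩ := h.neA 0 (by omega)
    exact hv (h2 Submodule.mem_top)

theorem Sys.le {A B : Module.End K V} {d : ℕ} {a : ℕ → K} {P : ℕ → Module.End K V}
    {δ : ℕ} {b : ℕ → K} {Q : ℕ → Module.End K V} (h : Sys A B d a P δ b Q) : d ≤ δ := by
  by_contra hlt
  push Not at hlt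
  obtain ⟨v, hv⟩ := h.neA d le_rfl
  refine hv (h.disj δ d hlt (P d v) ?_)
  rw [mem_NN]
  refine ⟨fun k hk hk' => by omega, fun k hk hk' => ?_⟩
  rw [h.iA.orth k hk d le_rfl, if_neg (by omega)]

theorem Sys.eq {A B : Module.End K V} {d : ℕ} {a : ℕ → K} {P : ℕ → Module.End K V}
    {δ : ℕ} {b : ℕ → K} {Q : ℕ → Module.End K V} (h : Sys A B d a P δ b Q) : d = δ :=
  le_antisymm h.le h.swap.le

end Pool.Agent.Helper9.TD
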