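import Mathlib

/-! Scalar identities for sequences with a three term recurrence. -/

set_option autoImplicit false

namespace Pool.Agent.Helper9.TD

variable {K : Type*} [Field K]

/-- inhomogeneous three term recurrence -/
def Rec (β γ : K) (a : ℤ → K) : Prop := ∀ i, a (i - 1) - β * a i + a (i + 1) = γ

/-- normalized sums for sequences indexed by the integers -/
def thZ (d : ℕ) (a : ℤ → K) (i : ℕ) : K :=
  (∑ h ∈ Finset.range i, (a h - a (d - h))) / (a 0 - a d)

theorem thZ_zero (d : ℕ) (a : ℤ → K) : thZ d a 0 = 0 := by simp [thZ]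

theorem thZ_succ (d : ℕ) (a : ℤ → K) (i : ℕ) :
    thZ d a (i + 1) = thZ d a i + (a i - a (d - i)) / (a 0 - a d) := by
  rw [thZ, thZ, Finset.sum_range_succ, add_div]

theorem thZ_one (d : ℕ) (a : ℤ → K) (h : a 0 ≠ a d) : thZ d a 1 = 1 := by
  rw [thZ_succ, thZ_zero, zero_add]
  simp only [Nat.cast_zero, sub_zero]
  exact div_self (sub_ne_zero.mpr h)

theorem thZ_last (d : ℕ) (a : ℤ → K) : thZ d a (d + 1) = 0 := by
  have h1 : ∑ h ∈ Finset.range (d + 1), (a h - a (d - h)) = 0 := by
    rw [Finset.sum_sub_distrib]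
    have h2 := Finset.sum_range_reflect (fun i : ℕ => a i) (d + 1)
    rw [← h2, sub_eq_zero]
    refine Finset.sum_congr rfl fun i hi => ?_
    have : i ≤ d := by simpa [Nat.lt_succ_iff] using hi
    congr 1
    simp only [Nat.add_sub_cancel]
    push_cast [this]
    ring
  rw [thZ, h1, zero_div]

theorem thZ_rev (d : ℕ) (a : ℤ → K) (i : ℕ) : thZ d (fun j => a (d - j)) i = thZ d a i := by
  simp only [thZ, sub_zero, sub_self, sub_sub_cancel]
  rw [← neg_div_neg_eq, neg_sub, ← Finset.sum_neg_distrib]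
  congr 1
  refine Finset.sum_congr rfl fun i _ => ?_
  ring

theorem Rec.rev {β γ : K} {a : ℤ → K} (h : Rec β γ a) (d : ℤ) : Rec β γ (fun j => a (d - j)) := by
  intro i
  have h1 := h (d - i)
  have e1 : d - (i - 1) = d - i + 1 := by ring
  have e2 : d - (i + 1) = d - i - 1 := by ring
  simp only [e1, e2]
  linear_combination h1

/-- the quadratic invariant is constant -/
theorem Rec.quad {β γ : K} {a : ℤ → K} (h : Rec β γ a) (i : ℤ) :
    a i ^ 2 - β * a i * a (i + 1) + a (i + 1) ^ 2 - γ * (a i + a (i + 1)) =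
    a 0 ^ 2 - β * a 0 * a 1 + a 1 ^ 2 - γ * (a 0 + a 1) := by
  have hstep : ∀ i : ℤ, a i ^ 2 - β * a i * a (i + 1) + a (i + 1) ^ 2 - γ * (a i + a (i + 1)) =
      a (i - 1) ^ 2 - β * a (i - 1) * a i + a i ^ 2 - γ * (a (i - 1) + a i) := by
    intro i
    have h1 := h i
    linear_combination (a (i + 1) - a (i - 1)) * h1
  induction i using Int.induction_on with
  | zero => simp
  | succ i ih =>
    have h1 := hstep (i + 1)
    have e1 : (i : ℤ) + 1 - 1 = i := by ring
    rw [e1] at h1
    rw [h1, ih]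
  | pred i ih =>
    have h1 := hstep (-(i : ℤ))
    have e1 : -(i : ℤ) - 1 + 1 = -i := by ring
    rw [e1, ← h1, ih]

theorem Rec.diag {β γ : K} {a : ℤ → K} (h : Rec β γ a) (i : ℤ) :
    (2 - β) * a i ^ 2 - 2 * γ * a i - (a 0 ^ 2 - β * a 0 * a 1 + a 1 ^ 2 - γ * (a 0 + a 1)) =
      (a i - a (i - 1)) * (a i - a (i + 1)) := by
  rw [← h.quad i]
  have h1 := h i
  linear_combination (a i - a (i + 1)) * h1

theorem thZ_const {β γ : K} {a : ℤ → K} (h : Rec β γ a) (d : ℕ) (i : ℕ) :
    thZ d a i - β * thZ d a (i + 1) + thZ d a (i + 2) =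
      - β * thZ d a 1 + thZ d a 2 := by
  induction i with
  | zero => rw [thZ_zero]; ring
  | succ i ih =>
    rw [← ih]
    have e1 := thZ_succ d a i
    have e2 := thZ_succ d a (i + 1)
    have e3 := thZ_succ d a (i + 2)
    have h1 := h (i + 1)
    have h2 := h (d - (i + 1))
    have c1 : (i : ℤ) + 1 - 1 = i := by ring
    have c2 : (i : ℤ) + 1 + 1 = i + 2 := by ring
    have c3 : (d : ℤ) - (i + 1) - 1 = d - (i + 2) := by ring
    have c4 : (d : ℤ) - (i + 1) + 1 = d - i := by ring
    rw [c1, c2] at h1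
    rw [c3, c4] at h2
    push_cast at e2 e3
    have e4 : i + 1 + 1 = i + 2 := rfl
    have e5 : i + 1 + 2 = i + 2 + 1 := rfl
    rw [e4] at e2 ⊢
    rw [e5, e3, e2, e1]
    have h3 : ((a i - a (d - i)) - β * (a (i + 1) - a (d - (i + 1))) + (a (i + 2) - a (d - (i + 2)))) = 0 := by
      linear_combination h1 - h2
    have h4 : ((a i - a (d - i)) - β * (a (i + 1) - a (d - (i + 1))) + (a (i + 2) - a (d - (i + 2)))) / (a 0 - a d) = 0 := by
      rw [h3, zero_div]
    linear_combination h4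

/-- constants -/
def omS (β : K) (d : ℕ) (a : ℤ → K) : K := - β * thZ d a 1 + thZ d a 2

def etS (β : K) (d : ℕ) (a : ℤ → K) : K := (a 0 - a (-1)) - omS β d a * a 0

def kap (d : ℕ) (a b : ℤ → K) (i : ℕ) : K := (b i - b 0) * (a (i - 1) - a d)

def om0 (β γ γs : K) (d : ℕ) (a b : ℤ → K) : K :=
  - β * kap d a b 1 + kap d a b 2 + (a 0 + a 1) * (b 0 + b 1) - β * (a 0 * b 0 + a 1 * b 1)
    - γ * (b 0 + b 1) - γs * (a 0 + a 1)

def et0 (β γ γs : K) (d : ℕ) (a b : ℤ → K) : K :=
  kap d a b 1 * (a 0 - a (-1)) + b 0 * ((a 0 - a (-1)) * (a 0 - a 1)) - γs * a 0 ^ 2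
    - om0 β γ γs d a b * a 0

theorem two_S {β γ : K} {a : ℤ → K} (h : Rec β γ a) (d : ℕ) (had : a 0 ≠ a d) (i : ℕ) :
    thZ d a i * (a i - a (i + 1)) + thZ d a (i + 1) * (a i - a (i - 1)) =
      omS β d a * a i + etS β d a := by
  induction i with
  | zero =>
    rw [thZ_zero, zero_add, thZ_one d a had, etS]
    simp only [Nat.cast_zero]
    have e1 : (0 : ℤ) - 1 = -1 := by ring
    rw [e1]; ring
  | succ i ih =>
    have h0 := thZ_const h d i
    have h1 := h i
    have h2 := h (i + 1)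
    have c1 : (i : ℤ) + 1 - 1 = i := by ring
    have c2 : (i : ℤ) + 1 + 1 = i + 2 := by ring
    rw [c1, c2] at h2
    push_cast
    rw [c1, c2]
    have e4 : i + 1 + 1 = i + 2 := rfl
    rw [e4]
    rw [omS] at ih ⊢
    linear_combination ih + (a (i + 1) - a i) * h0 + thZ d a (i + 1) * (h1 - h2)

theorem one_C {β γ γs : K} {a b : ℤ → K} (h : Rec β γ a) (hb : Rec β γs b) (d : ℕ) (i : ℕ) :
    kap d a b i - β * kap d a b (i + 1) + kap d a b (i + 2)
      + (a i + a (i + 1)) * (b i + b (i + 1)) - β * (a i * b i + a (i + 1) * b (i + 1))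
      - γ * (b i + b (i + 1)) - γs * (a i + a (i + 1)) = om0 β γ γs d a b := by
  induction i with
  | zero =>
    simp only [om0, kap]
    push_cast
    norm_num
  | succ i ih =>
    rw [← ih]
    simp only [kap]
    push_cast
    have h1 := h i
    have h2 := h (i + 1)
    have h3 := hb (i + 1)
    have h4 := hb (i + 2)
    have c1 : (i : ℤ) + 1 - 1 = i := by ring
    have c2 : (i : ℤ) + 1 + 1 = i + 2 := by ring
    have c3 : (i : ℤ) + 2 - 1 = i + 1 := by ring
    have c4 : (i : ℤ) + 2 + 1 = i + 3 := by ring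
    have c5 : (i : ℤ) + 1 + 2 = i + 3 := by ring
    have c6 : (i : ℤ) + 3 - 1 = i + 2 := by ring
    simp only [c1, c2, c3, c4, c5, c6] at *
    have g1 : a (i - 1) = γ + β * a i - a (i + 1) := by linear_combination h1
    have g2 : a (i + 2) = γ + β * a (i + 1) - a i := by linear_combination h2
    have g3 : b (i + 3) = γs + β * b (i + 2) - b (i + 1) := by linear_combination h4
    have g4 : b i = γs + β * b (i + 1) - b (i + 2) := by linear_combination h3
    rw [g1, g2, g3, g4]
    ring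

theorem two_C {β γ γs : K} {a b : ℤ → K} (h : Rec β γ a) (hb : Rec β γs b) (d : ℕ) (i : ℕ) :
    kap d a b i * (a i - a (i + 1)) + kap d a b (i + 1) * (a i - a (i - 1))
      + b i * ((a i - a (i - 1)) * (a i - a (i + 1))) =
      γs * a i ^ 2 + om0 β γ γs d a b * a i + et0 β γ γs d a b := by
  induction i with
  | zero =>
    simp only [et0, kap]
    push_cast
    norm_num
  | succ i ih =>
    have h0 := one_C h hb d i
    have h1 := h i
    have h2 := h (i + 1)
    have h3 := hb (i + 1)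
    have c1 : (i : ℤ) + 1 - 1 = i := by ring
    have c2 : (i : ℤ) + 1 + 1 = i + 2 := by ring
    rw [c1, c2] at h2
    push_cast
    rw [c1, c2]
    have e4 : i + 1 + 1 = i + 2 := rfl
    rw [e4]
    have g1 : a (i - 1) = γ + β * a i - a (i + 1) := by linear_combination h1
    have g2 : a (i + 2) = γ + β * a (i + 1) - a i := by linear_combination h2
    rw [g1] at ih
    rw [g2]
    linear_combination ih + (a (i + 1) - a i) * h0

theorem etS_rev {β γ : K} {a : ℤ → K} (h : Rec β γ a) (d : ℕ) (had : a 0 ≠ a d) :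
    etS β d (fun j => a (d - j)) = etS β d a := by
  have h1 := h 0
  have h2 := h d
  have hD : a 0 - a d ≠ 0 := sub_ne_zero.mpr had
  simp only [etS, omS, thZ_rev, thZ_one d a had]
  have e2 := thZ_succ d a 1
  rw [thZ_one d a had] at e2
  push_cast at e2
  rw [e2]
  simp only [sub_zero, sub_neg_eq_add]
  have e4 : (0 : ℤ) - 1 = -1 := by ring
  rw [e4, zero_add] at h1
  have g1 : a (-1) = γ + β * a 0 - a 1 := by linear_combination h1
  have g2 : a (d + 1) = γ + β * a d - a (d - 1) := by linear_combination h2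
  rw [g1, g2]
  field_simp
  ring

theorem om0_rev {β γ γs : K} {a b : ℤ → K} (hb : Rec β γs b) (d : ℕ)
    (had : a 0 ≠ a d) :
    om0 β γ γs d (fun j => a (d - j)) b + kap d a b 1 * omS β d a = om0 β γ γs d a b := by
  have h1 := hb 1
  have hD : a 0 - a d ≠ 0 := sub_ne_zero.mpr had
  simp only [om0, omS, thZ_one d a had, kap]
  have e2 := thZ_succ d a 1
  rw [thZ_one d a had] at e2
  push_cast at e2 ⊢
  rw [e2]
  norm_num at h1 ⊢
  have g1 : b 2 = γs + β * b 1 - b 0 := by linear_combination h1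
  have e5 : (d : ℤ) - d = 0 := by ring
  rw [g1]
  field_simp
  ring

theorem et0_rev {β γ γs : K} {a b : ℤ → K} (h : Rec β γ a) (hb : Rec β γs b) (d : ℕ)
    (had : a 0 ≠ a d) :
    et0 β γ γs d (fun j => a (d - j)) b + kap d a b 1 * etS β d a = et0 β γ γs d a b := by
  have h0 := om0_rev (γ := γ) hb d had
  have h1 := hb 1
  have ha0 := h 0
  have had' := h d
  have hD : a 0 - a d ≠ 0 := sub_ne_zero.mpr had
  have h3 : om0 β γ γs d (fun j => a (d - j)) b = om0 β γ γs d a b - kap d a b 1 * omS β d a := by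
    rw [← h0]; ring
  simp only [et0, h3, etS]
  simp only [om0, omS, thZ_one d a had, kap]
  have e2 := thZ_succ d a 1
  rw [thZ_one d a had] at e2
  push_cast at e2 ⊢
  rw [e2]
  norm_num at h1 ha0 ⊢
  have g1 : b 2 = γs + β * b 1 - b 0 := by linear_combination h1
  have g2 : a (-1) = γ + β * a 0 - a 1 := by linear_combination ha0
  have g3 : a (d + 1) = γ + β * a d - a (d - 1) := by linear_combination had'
  have hq := h.quad (d - 1)
  have c1 : (d : ℤ) - 1 + 1 = d := by ring
  rw [c1] at hq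
  rw [g1, g2, g3]
  field_simp
  linear_combination (-b 0) * hq

end Pool.Agent.Helper9.TD
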