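import Pool.Agent.H370.G.R_seed8.Helper9.TDNec

set_option autoImplicit false

namespace Pool.Agent.Helper9.TD

open Polynomial Module

variable {K : Type*} [Field K] {V : Type*} [AddCommGroup V] [Module K V]
variable {U : Type*} [AddCommGroup U] [Module K U]

/-- the operator coefficients of the split form -/
def phiOp (d : ℕ) (a b : ℕ → K) (S : Module.End K U) (i : ℕ) : Module.End K U :=
  th d a i • S + ((b i - b 0) * (a (i - 1) - a d)) • (1 : Module.End K U)

theorem phiOp_apply (d : ℕ) (a b : ℕ → K) (S : Module.End K U) (i : ℕ) (x : U) :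
    phiOp d a b S i x = th d a i • S x + ((b i - b 0) * (a (i - 1) - a d)) • x := rfl

theorem th_zero (d : ℕ) (a : ℕ → K) : th d a 0 = 0 := by simp [th]

theorem th_last (d : ℕ) (a : ℕ → K) : th d a (d + 1) = 0 := by
  have h1 : ∑ h ∈ Finset.range (d + 1), (a h - a (d - h)) = 0 := by
    rw [Finset.sum_sub_distrib]
    have := Finset.sum_range_reflect a (d + 1)
    simp only [Nat.add_sub_cancel] at this
    rw [this, sub_self]
  rw [th, h1, zero_div]

theorem th_one (d : ℕ) (a : ℕ → K) (h : a 0 ≠ a d) : th d a 1 = 1 := by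
  simp only [th, Finset.sum_range_one]
  simp only [Nat.sub_zero]
  exact div_self (sub_ne_zero.mpr h)

/-- simplicity of `(U, S)` -/
def IsSimpleOp (S : Module.End K U) : Prop :=
  Nontrivial U ∧ ∀ X : Submodule K U, (∀ x ∈ X, S x ∈ X) → X = ⊥ ∨ X = ⊤

theorem IsSimpleOp.not_scalar {S : Module.End K U} (h : IsSimpleOp S) (ρ : ℕ) (hρ : 2 ≤ ρ)
    (hU : finrank K U = ρ) (x : U) (hx : x ≠ 0) (r : K) : S x ≠ r • x := by
  intro hs
  have h1 := h.2 (Submodule.span K {x}) (by
    intro y hy
    obtain ⟨t, rfl⟩ := Submodule.mem_span_singleton.mp hy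
    rw [map_smul, hs]
    exact Submodule.smul_mem _ _ (Submodule.smul_mem _ _ (Submodule.mem_span_singleton_self x)))
  rcases h1 with h1 | h1
  · exact hx (Submodule.span_singleton_eq_bot.mp h1)
  · have h2 := finrank_span_singleton (K := K) hx
    rw [h1, finrank_top, hU] at h2
    omega

theorem simple_of_irred {A B : Module.End K V} {d : ℕ} {a b : ℕ → K} {Φ : ℕ → Module.End K U}
    {e : ℕ → U →ₗ[K] V} {c : ℕ → V →ₗ[K] U} (h : Spl A B d a b Φ e c)
    (irr : ∀ W : Submodule K V, (∀ w ∈ W, A w ∈ W) → (∀ w ∈ W, B w ∈ W) → W = ⊥ ∨ W = ⊤)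
    (S : Module.End K U) (t κ : ℕ → K) (hΦ : ∀ i, i + 1 ≤ d → ∀ x, Φ (i + 1) x = t (i + 1) • S x + κ (i + 1) • x)
    (X : Submodule K U) (hX : ∀ x ∈ X, S x ∈ X) : X = ⊥ ∨ X = ⊤ := by
  let W : Submodule K V := ⨅ i : ℕ, X.comap (c i)
  have hW : ∀ w, w ∈ W ↔ ∀ i, c i w ∈ X := by
    intro w; simp [W, Submodule.mem_iInf]
  have hWA : ∀ w ∈ W, A w ∈ W := by
    intro w hw
    rw [hW] at hw ⊢
    intro i
    rcases i with _ | i
    · rw [h.c_A_zero]; exact X.smul_mem _ (hw 0)
    · by_cases hi : i + 1 ≤ d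
      · rw [h.c_A_succ i hi]; exact X.add_mem (X.smul_mem _ (hw _)) (hw _)
      · rw [h.c_gt (i + 1) (by omega)]; exact X.zero_mem
  have hWB : ∀ w ∈ W, B w ∈ W := by
    intro w hw
    rw [hW] at hw ⊢
    intro i
    by_cases hi : i ≤ d
    · rw [h.c_B i hi]
      refine X.add_mem (X.smul_mem _ (hw _)) ?_
      by_cases hi' : i + 1 ≤ d
      · rw [hΦ i hi']
        exact X.add_mem (X.smul_mem _ (hX _ (hw _))) (X.smul_mem _ (hw _))
      · rw [h.c_gt (i + 1) (by omega)]; simp
    · rw [h.c_gt i (by omega)]; exact X.zero_mem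
  have he : ∀ x ∈ X, e 0 x ∈ W := by
    intro x hx
    rw [hW]
    intro i
    by_cases hi : i ≤ d
    · rw [h.c_e i hi]
      split_ifs
      · exact hx
      · exact X.zero_mem
    · rw [h.c_gt i (by omega)]; exact X.zero_mem
  rcases irr W hWA hWB with h1 | h1
  · left
    rw [eq_bot_iff]
    intro x hx
    have h2 := he x hx
    rw [h1, Submodule.mem_bot] at h2
    have h3 := congrArg (c 0) h2
    rw [h.c_e 0 (by omega), if_pos rfl, map_zero] at h3
    exact h3
  · right
    rw [eq_top_iff]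
    intro x _
    have h2 : e 0 x ∈ W := by rw [h1]; exact Submodule.mem_top
    have h3 := (hW _).mp h2 0
    rwa [h.c_e 0 (by omega), if_pos rfl] at h3

theorem Sys.structure {A B : Module.End K V} {d : ℕ} {a b : ℕ → K} {P Q : ℕ → Module.End K V}
    (h : Sys A B d a P d b Q) (hd : 1 ≤ d) [FiniteDimensional K V] (ρ : ℕ) (hρ2 : 2 ≤ ρ)
    (hρ : ∀ i ≤ d, finrank K (A.eigenspace (a i)) = ρ) :
    ∃ (S : Module.End K (B.eigenspace (b 0))) (e : ℕ → (B.eigenspace (b 0)) →ₗ[K] V)
      (c : ℕ → V →ₗ[K] (B.eigenspace (b 0))),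
      Spl A B d a b (phiOp d a b S) e c ∧ IsSimpleOp S ∧ finrank K (B.eigenspace (b 0)) = ρ ∧
      ∃ β : K, ∀ i, i + 3 ≤ d → a i - a (i + 3) = (β + 1) * (a (i + 1) - a (i + 2)) ∧
        b i - b (i + 3) = (β + 1) * (b (i + 1) - b (i + 2)) := by
  obtain ⟨Φ, c, hs⟩ := h.exists_spl hd ρ hρ
  have hρ' : ∀ i ≤ d, finrank K (A.eigenspace ((fun i => a (d - i)) i)) = ρ :=
    fun i hi => hρ (d - i) (by omega)
  obtain ⟨Φ', c', hs'⟩ := h.revA.exists_spl hd ρ hρ'
  have hU := (h.chain_bij hd ρ hρ).2
  set e := chain A a (B.eigenspace (b 0)).subtype with he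
  set e' := chain A (fun i => a (d - i)) (B.eigenspace (b 0)).subtype with he'
  let S := Φ' 1
  have hcmp := hs'.compare hd a e Φ (by rw [he, he', chain_zero, chain_zero]) hs.hA hs.hB
  simp only [Nat.sub_zero] at hcmp
  let t : ℕ → K := fun i => gg (a d) (a (d - 1)) a i / pp (a d) a (i - 1)
  have hΦ : ∀ i, i + 1 ≤ d → ∀ x, Φ (i + 1) x =
      t (i + 1) • S x + ((b (i + 1) - b 0) * (a i - a d)) • x := by
    intro i hi x
    have hp := pp_ne_zero d a h.iA.inj i (by omega)
    have h1 := hcmp i x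
    have h2 : Φ (i + 1) x = (pp (a d) a i)⁻¹ • (pp (a d) a i • Φ (i + 1) x) := by
      rw [smul_smul, inv_mul_cancel₀ hp, one_smul]
    rw [h2, h1, smul_sub, smul_smul, smul_smul, sub_eq_add_neg, ← neg_smul]
    have h3 : (pp (a d) a i)⁻¹ * gg (a d) (a (d - 1)) a (i + 1) = t (i + 1) := by
      simp only [t, Nat.add_sub_cancel]
      field_simp
    have h4 : -((pp (a d) a i)⁻¹ * ((b (i + 1) - b 0) * pp (a d) a (i + 1)))
        = (b (i + 1) - b 0) * (a i - a d) := by
      rw [pp]
      field_simp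
      ring
    rw [h3, h4]
  have hnt : Nontrivial (B.eigenspace (b 0)) := by
    apply Module.nontrivial_of_finrank_pos (R := K)
    rw [hU]; omega
  have hsimple : IsSimpleOp S := by
    refine ⟨hnt, fun X hX => ?_⟩
    exact simple_of_irred hs h.irr S t (fun i => (b i - b 0) * (a (i - 1) - a d))
      (fun i hi x => by simpa using hΦ i hi x) X hX
  have had : a 0 ≠ a d := by
    intro h0
    have := h.iA.inj 0 (by omega) d le_rfl h0
    omega
  have hscal : ∀ α β : K, (∀ x : B.eigenspace (b 0), α • S x + β • x = 0) → α = 0 := by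
    intro α β hαβ
    by_contra hα
    obtain ⟨x, hx⟩ := exists_ne (0 : B.eigenspace (b 0))
    refine hsimple.not_scalar ρ hρ2 hU x hx (-(α⁻¹ * β)) ?_
    have h1 : S x = α⁻¹ • (α • S x) := by rw [smul_smul, inv_mul_cancel₀ hα, one_smul]
    have h2 : α • S x = -(β • x) := eq_neg_of_add_eq_zero_left (hαβ x)
    rw [h1, h2, smul_neg, smul_smul, neg_smul]
  have ht1 : t 1 = 1 := by
    simp [t, gg, pp]
  -- identify `t` with `th`
  have hboth : (∀ i, i + 1 ≤ d → t (i + 1) = th d a (i + 1)) ∧
      ∃ β : K, ∀ i, i + 3 ≤ d → a i - a (i + 3) = (β + 1) * (a (i + 1) - a (i + 2)) ∧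
        b i - b (i + 3) = (β + 1) * (b (i + 1) - b (i + 2)) := by
    have ht2 : 2 ≤ d → t 2 = th d a 2 := by
      intro hd2
      have h1 : a d - a 0 ≠ 0 := sub_ne_zero.mpr (Ne.symm had)
      have h2 : a 0 - a d ≠ 0 := sub_ne_zero.mpr had
      simp only [t, gg, pp, th, Finset.sum_range_succ, Finset.sum_range_zero, Nat.sub_zero]
      field_simp
      ring
    by_cases hd3 : 3 ≤ d
    · obtain ⟨z3, z2, z1, hz, hza⟩ := hs.cubic h.iA h.triA h.neA hd3 h.iB.inj
      have hb := hs.cubic_b z3 z2 z1 hz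
      have hz3 : z3 ≠ 0 := by
        rintro rfl
        have h1 := hb 0 (by omega)
        rw [zero_mul] at h1
        have := h.iB.inj 1 (by omega) 2 (by omega) (sub_eq_zero.mp h1)
        omega
      have hR1 : ∀ i, i + 1 ≤ d → a (i + 1) * a i =
          z3 * (a (i + 1) ^ 2 + a (i + 1) * a i + a i ^ 2) + z2 * (a (i + 1) + a i) + z1 := by
        intro i hi
        have h1 := hza i hi
        have h2 : a (i + 1) - a i ≠ 0 := by
          intro h0
          have := h.iA.inj (i + 1) hi i (by omega) (sub_eq_zero.mp h0)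
          omega
        apply mul_right_cancel₀ h2
        rw [h1]; ring
      have hR : ∀ i, i + 2 ≤ d → a (i + 1) = z3 * (a (i + 2) + a (i + 1) + a i) + z2 := by
        intro i hi
        have h1 := hR1 i (by omega)
        have h2 := hR1 (i + 1) (by omega)
        have h3 : a (i + 2) - a i ≠ 0 := by
          intro h0
          have := h.iA.inj (i + 2) hi i (by omega) (sub_eq_zero.mp h0)
          omega
        apply mul_right_cancel₀ h3
        have e1 : i + 1 + 1 = i + 2 := rfl
        rw [e1] at h2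
        linear_combination h2 - h1
      have hβ : ∃ β : K, ∀ i, i + 3 ≤ d → a i - a (i + 3) = (β + 1) * (a (i + 1) - a (i + 2)) ∧
          b i - b (i + 3) = (β + 1) * (b (i + 1) - b (i + 2)) := by
        refine ⟨z3⁻¹ - 1, fun i hi => ⟨?_, ?_⟩⟩
        · have h1 := hR i (by omega)
          have h2 := hR (i + 1) (by omega)
          have e1 : i + 1 + 1 = i + 2 := rfl
          have e2 : i + 1 + 2 = i + 3 := rfl
          rw [e1, e2] at h2
          rw [sub_add_cancel]
          have h3 : a (i + 1) - a (i + 2) = z3 * (a i - a (i + 3)) := by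
            linear_combination h1 - h2
          rw [h3, ← mul_assoc, inv_mul_cancel₀ hz3, one_mul]
        · rw [sub_add_cancel, hb i hi, ← mul_assoc, inv_mul_cancel₀ hz3, one_mul]
      refine ⟨fun i hi => ?_, hβ⟩
      let t' : ℕ → K := fun i => if i = 0 then 0 else t i
      have ht' : ∀ i, i + 3 ≤ d → t' (i + 1) - t' (i + 2) = z3 * (t' i - t' (i + 3)) := by
        intro i hi
        rcases i with _ | i
        · have h1 := hs.cubic_phi0 z3 z2 z1 hz (by omega)
          simp only [t']
          norm_num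
          have h2 := hscal (t 1 - t 2 + z3 * t 3) (((b 1 - b 0) * (a 0 - a d)) - ((b 2 - b 0) * (a 1 - a d))
            + z3 * ((b 3 - b 0) * (a 2 - a d)) + (a 0 * b 0 + b 1 * (a 2 - a 0) - a 2 * b 2 - z3 * ((b 0 - b 2) * (a 0 + a 1 + a 2))
        - z2 * (b 0 - b 2))) (fun x => by
              have h2 := h1 x
              rw [hΦ 0 (by omega) x, hΦ 1 (by omega) x, hΦ 2 (by omega) x] at h2
              rw [← sub_eq_zero] at h2
              rw [← h2]
              simp only [zero_add]
              module)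
          linear_combination h2
        · have h1 := hs.cubic_phi z3 z2 z1 hz i (by omega)
          have e0 : ∀ m, t' (m + 1) = t (m + 1) := fun m => by simp [t']
          rw [e0, e0, e0, e0]
          have h2 := hscal (t (i + 2) - t (i + 3) - z3 * (t (i + 1) - t (i + 4)))
            (((b (i + 2) - b 0) * (a (i + 1) - a d)) - ((b (i + 3) - b 0) * (a (i + 2) - a d))
              - z3 * (((b (i + 1) - b 0) * (a i - a d)) - ((b (i + 4) - b 0) * (a (i + 3) - a d)))
              + (a (i + 1) * b (i + 1) + b (i + 2) * (a (i + 3) - a (i + 1)) - a (i + 3) * b (i + 3)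
        - z3 * ((b (i + 1) - b (i + 3)) * (a (i + 1) + a (i + 2) + a (i + 3)))
        - z2 * (b (i + 1) - b (i + 3)))) (fun x => by
              have h2 := h1 x
              rw [hΦ (i + 1) (by omega) x, hΦ (i + 2) (by omega) x, hΦ i (by omega) x,
                hΦ (i + 3) (by omega) x] at h2
              rw [← sub_eq_zero] at h2
              rw [← h2]
              module)
          linear_combination h2
      have h3 := rec_unique d z3 hz3 t' (th d a) (by simp [t', th_zero]) (by simp [t', ht1, th_one d a had])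
        (by simp [t', ht2 (by omega)]) ht' (th_rec d a z3 z2 hR) (i + 1) hi
      simpa [t'] using h3
    · refine ⟨fun i hi => ?_, ⟨0, fun i hi => by omega⟩⟩
      have : i = 0 ∨ i = 1 := by omega
      rcases this with rfl | rfl
      · rw [zero_add, ht1, th_one d a had]
      · exact ht2 (by omega)
  refine ⟨S, e, c, ?_, hsimple, hU, hboth.2⟩
  refine hs.congr_phi _ (fun i hi x => ?_) (fun x => ?_)
  · rw [hΦ i hi, phiOp_apply, hboth.1 i hi, Nat.add_sub_cancel]
  · rw [phiOp_apply, th_last, Nat.add_sub_cancel, sub_self, mul_zero, zero_smul, zero_smul, add_zero]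

end Pool.Agent.Helper9.TD
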