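import Pool.Agent.H370.G.R_seed8.Helper9.TDNec2

set_option autoImplicit false

namespace Pool.Agent.Helper9.TD

open Polynomial Module

variable {K : Type*} [Field K]
variable {U : Type*} [AddCommGroup U] [Module K U]

theorem ker_aeval_inv (S : Module.End K U) (g : K[X]) (x : U) (hx : x ∈ LinearMap.ker (aeval S g)) :
    S x ∈ LinearMap.ker (aeval S g) := by
  rw [LinearMap.mem_ker] at hx ⊢
  have h4 : aeval S g * S = S * aeval S g := by
    have : aeval S (g * X) = aeval S (X * g) := by rw [mul_comm]
    simpa only [map_mul, aeval_X] using this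
  have h5 := congrArg (fun T : Module.End K U => T x) h4
  simp only [Module.End.mul_apply] at h5
  rw [h5, hx, map_zero]

theorem IsSimpleOp.aeval_zero {S : Module.End K U} (h : IsSimpleOp S) (g : K[X]) (u : U) (hu : u ≠ 0)
    (hg : aeval S g u = 0) : aeval S g = 0 := by
  rcases h.2 (LinearMap.ker (aeval S g)) (fun x hx => ker_aeval_inv S g x hx) with h1 | h1
  · exfalso
    have : u ∈ LinearMap.ker (aeval S g) := hg
    rw [h1, Submodule.mem_bot] at this
    exact hu this
  · exact LinearMap.ker_eq_top.mp h1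

theorem simple_irreducible (S : Module.End K U) [FiniteDimensional K U] (h : IsSimpleOp S) :
    Irreducible (minpoly K S) := by
  have hnt : Nontrivial U := h.1
  obtain ⟨u, hu⟩ := exists_ne (0 : U)
  have hint : IsIntegral K S := Algebra.IsIntegral.isIntegral S
  have hmonic := minpoly.monic hint
  have hne : minpoly K S ≠ 1 := by
    intro h1
    have h2 := minpoly.aeval K S
    rw [h1, map_one] at h2
    exact hu (by simpa using congrArg (fun T : Module.End K U => T u) h2)
  constructor
  · intro hunit
    exact hne (hmonic.eq_one_of_isUnit hunit)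
  · intro p q hpq
    have h0 : aeval S (p * q) = 0 := by rw [← hpq]; exact minpoly.aeval K S
    have hp0 : p ≠ 0 := by rintro rfl; rw [zero_mul] at hpq; exact hmonic.ne_zero hpq
    have hq0 : q ≠ 0 := by rintro rfl; rw [mul_zero] at hpq; exact hmonic.ne_zero hpq
    by_cases hqu : aeval S q u = 0
    · left
      have h1 := h.aeval_zero q u hu hqu
      have h2 := minpoly.dvd K S h1
      rw [hpq] at h2
      have h3 := natDegree_le_of_dvd h2 hq0
      rw [natDegree_mul hp0 hq0] at h3
      have h4 : p.natDegree = 0 := by omega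
      rw [Polynomial.isUnit_iff_degree_eq_zero, degree_eq_natDegree hp0, h4]
      rfl
    · right
      have h1 : aeval S p (aeval S q u) = 0 := by
        have := congrArg (fun T : Module.End K U => T u) h0
        simpa only [map_mul, Module.End.mul_apply, LinearMap.zero_apply] using this
      have h1 := h.aeval_zero p _ hqu h1
      have h2 := minpoly.dvd K S h1
      rw [hpq] at h2
      have h3 := natDegree_le_of_dvd h2 hp0
      rw [natDegree_mul hp0 hq0] at h3
      have h4 : q.natDegree = 0 := by omega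
      rw [Polynomial.isUnit_iff_degree_eq_zero, degree_eq_natDegree hq0, h4]
      rfl

theorem simple_iso (S : Module.End K U) [FiniteDimensional K U] (h : IsSimpleOp S) :
    ∃ ψ : AdjoinRoot (minpoly K S) ≃ₗ[K] U, ∀ x, ψ (AdjoinRoot.root (minpoly K S) * x) = S (ψ x) := by
  have hnt : Nontrivial U := h.1
  obtain ⟨u, hu⟩ := exists_ne (0 : U)
  have hint : IsIntegral K S := Algebra.IsIntegral.isIntegral S
  have hmonic := minpoly.monic hint
  let φ0 : K[X] →ₗ[K] U := (LinearMap.applyₗ u) ∘ₗ (aeval S).toLinearMap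
  have hφ0 : ∀ g, φ0 g = aeval S g u := fun g => rfl
  let ψ : AdjoinRoot (minpoly K S) →ₗ[K] U := φ0 ∘ₗ (AdjoinRoot.modByMonicHom hmonic)
  have hψ : ∀ g, ψ (AdjoinRoot.mk _ g) = aeval S g u := by
    intro g
    have h1 : ψ (AdjoinRoot.mk _ g) = φ0 (g %ₘ minpoly K S) := by
      simp only [ψ, LinearMap.comp_apply, AdjoinRoot.modByMonicHom_mk]
    rw [h1, hφ0]
    conv_rhs => rw [← modByMonic_add_div g (minpoly K S)]
    rw [map_add, map_mul, minpoly.aeval, zero_mul, add_zero]
  have hmul : ∀ x, ψ (AdjoinRoot.root (minpoly K S) * x) = S (ψ x) := by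
    intro x
    obtain ⟨g, rfl⟩ := AdjoinRoot.mk_surjective x
    rw [← AdjoinRoot.mk_X, ← map_mul, hψ, hψ, map_mul, aeval_X]
    rfl
  have hinj : Function.Injective ψ := by
    rw [← LinearMap.ker_eq_bot, LinearMap.ker_eq_bot']
    intro x hx
    obtain ⟨g, rfl⟩ := AdjoinRoot.mk_surjective x
    rw [hψ] at hx
    rw [AdjoinRoot.mk_eq_zero]
    exact minpoly.dvd K S (h.aeval_zero g u hu hx)
  have hsurj : Function.Surjective ψ := by
    rw [← LinearMap.range_eq_top]
    rcases h.2 (LinearMap.range ψ) (by
      rintro _ ⟨y, rfl⟩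
      exact ⟨_, hmul y⟩) with h1 | h1
    · exfalso
      have h2 : u ∈ LinearMap.range ψ := ⟨AdjoinRoot.mk _ 1, by rw [hψ, map_one]; rfl⟩
      rw [h1, Submodule.mem_bot] at h2
      exact hu h2
    · exact h1
  exact ⟨LinearEquiv.ofBijective ψ ⟨hinj, hsurj⟩, hmul⟩

theorem finrank_adjoinRoot (f : K[X]) (hf : f.Monic) : finrank K (AdjoinRoot f) = f.natDegree := by
  rw [(AdjoinRoot.powerBasis hf.ne_zero).finrank, AdjoinRoot.powerBasis_dim hf.ne_zero]

/-- multiplication by the root is simple when the polynomial is irreducible -/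
theorem simple_root (f : K[X]) (hf : Irreducible f) :
    IsSimpleOp (LinearMap.mulLeft K (AdjoinRoot.root f)) := by
  have : Fact (Irreducible f) := ⟨hf⟩
  refine ⟨inferInstance, fun X hX => ?_⟩
  by_cases hbot : X = ⊥
  · exact Or.inl hbot
  right
  obtain ⟨x, hx, hx0⟩ := Submodule.exists_mem_ne_zero_of_ne_bot hbot
  have hmk : ∀ g : K[X], ∀ y ∈ X, AdjoinRoot.mk f g * y ∈ X := by
    intro g y hy
    induction g using Polynomial.induction_on' with
    | add p q hp hq => rw [map_add, add_mul]; exact X.add_mem hp hq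
    | monomial n r =>
      rw [← C_mul_X_pow_eq_monomial, map_mul, map_pow, AdjoinRoot.mk_X, AdjoinRoot.mk_C, mul_assoc]
      have h1 : AdjoinRoot.root f ^ n * y ∈ X := by
        induction n with
        | zero => simpa using hy
        | succ n ih => rw [pow_succ', mul_assoc]; exact hX _ ih
      have h2 : AdjoinRoot.of f r * (AdjoinRoot.root f ^ n * y) = r • (AdjoinRoot.root f ^ n * y) := by
        rw [Algebra.smul_def]; rfl
      rw [h2]
      exact X.smul_mem _ h1
  rw [eq_top_iff]
  intro y _
  obtain ⟨g, hg⟩ := AdjoinRoot.mk_surjective (y * x⁻¹)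
  have h1 := hmk g x hx
  rw [hg, mul_assoc, inv_mul_cancel₀ hx0, mul_one] at h1
  exact h1

end Pool.Agent.Helper9.TD
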