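import Pool.Agent.H370.G.R_seed8.Helper9.TDFlags

set_option autoImplicit false

namespace Pool.Agent.Helper9.TD

open Polynomial Module

variable {K : Type*} [Field K] {V : Type*} [AddCommGroup V] [Module K V]
variable {U : Type*} [AddCommGroup U] [Module K U]

/-- Block split form: `V` is the direct sum of copies `e i (U)`, `0 ≤ i ≤ d`, on which `A` is lower
bidiagonal and `B` is upper bidiagonal. -/
structure Spl (A B : Module.End K V) (d : ℕ) (a b : ℕ → K) (Φ : ℕ → Module.End K U)
    (e : ℕ → U →ₗ[K] V) (c : ℕ → V →ₗ[K] U) : Prop where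
  hA : ∀ i x, A (e i x) = a i • e i x + e (i + 1) x
  hB0 : ∀ x, B (e 0 x) = b 0 • e 0 x
  hB : ∀ i x, B (e (i + 1) x) = b (i + 1) • e (i + 1) x + e i (Φ (i + 1) x)
  e_gt : ∀ i, d < i → e i = 0
  c_e : ∀ i ≤ d, ∀ j x, c i (e j x) = if i = j then x else 0
  c_gt : ∀ i, d < i → c i = 0
  sum : ∀ v, ∑ i ∈ Finset.range (d + 1), e i (c i v) = v

/-- the chain map -/
noncomputable def chainMap (d : ℕ) (e : ℕ → U →ₗ[K] V) : (Fin (d + 1) → U) →ₗ[K] V :=
  ∑ i : Fin (d + 1), (e i) ∘ₗ LinearMap.proj i

theorem chainMap_apply (d : ℕ) (e : ℕ → U →ₗ[K] V) (x : Fin (d + 1) → U) :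
    chainMap d e x = ∑ i : Fin (d + 1), e i (x i) := by
  simp [chainMap, LinearMap.sum_apply]

theorem exists_coords (d : ℕ) (e : ℕ → U →ₗ[K] V) (hgt : ∀ i, d < i → e i = 0)
    (hbij : Function.Bijective (chainMap d e)) :
    ∃ c : ℕ → V →ₗ[K] U, (∀ i ≤ d, ∀ j x, c i (e j x) = if i = j then x else 0) ∧
      (∀ i, d < i → c i = 0) ∧ ∀ v, ∑ i ∈ Finset.range (d + 1), e i (c i v) = v := by
  let T := LinearEquiv.ofBijective (chainMap d e) hbij
  have hT : ∀ x, T x = ∑ i : Fin (d + 1), e i (x i) := fun x => chainMap_apply d e x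
  refine ⟨fun i => if h : i < d + 1 then LinearMap.proj (⟨i, h⟩ : Fin (d + 1)) ∘ₗ T.symm.toLinearMap
    else 0, ?_, ?_, ?_⟩
  · intro i hi j x
    have hi' : i < d + 1 := by omega
    simp only [dif_pos hi']
    by_cases hj : d < j
    · rw [hgt j hj]
      simp only [LinearMap.zero_apply, map_zero]
      rw [if_neg (by omega)]
    · have hj' : j < d + 1 := by omega
      have h1 : e j x = T (Pi.single (⟨j, hj'⟩ : Fin (d + 1)) x) := by
        rw [hT, Finset.sum_eq_single (⟨j, hj'⟩ : Fin (d + 1))]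
        · rw [Pi.single_eq_same]
        · intro k _ hk
          rw [Pi.single_eq_of_ne hk, map_zero]
        · intro h; exact absurd (Finset.mem_univ _) h
      rw [h1]
      simp only [LinearMap.comp_apply, LinearEquiv.coe_coe, LinearEquiv.symm_apply_apply,
        LinearMap.proj_apply]
      by_cases hij : i = j
      · subst hij; rw [if_pos rfl, Pi.single_eq_same]
      · rw [if_neg hij, Pi.single_eq_of_ne]
        intro h
        exact hij (congrArg Fin.val h)
  · intro i hi
    have : ¬ i < d + 1 := by omega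
    simp only [dif_neg this]
  · intro v
    rw [Finset.sum_range]
    have h1 := hT (T.symm v)
    rw [LinearEquiv.apply_symm_apply] at h1
    conv_rhs => rw [h1]
    refine Finset.sum_congr rfl fun i _ => ?_
    simp only [dif_pos i.isLt]
    rfl

namespace Spl

variable {A B : Module.End K V} {d : ℕ} {a b : ℕ → K} {Φ : ℕ → Module.End K U}
    {e : ℕ → U →ₗ[K] V} {c : ℕ → V →ₗ[K] U}

theorem ext_c (h : Spl A B d a b Φ e c) {v w : V} (hvw : ∀ i ≤ d, c i v = c i w) : v = w := by
  rw [← h.sum v, ← h.sum w]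
  refine Finset.sum_congr rfl fun i hi => ?_
  rw [hvw i (by simpa [Nat.lt_succ_iff] using hi)]

theorem c_A_zero (h : Spl A B d a b Φ e c) (v : V) : c 0 (A v) = a 0 • c 0 v := by
  conv_lhs => rw [← h.sum v]
  rw [map_sum, map_sum]
  rw [Finset.sum_eq_single 0]
  · rw [h.hA, map_add, map_smul, h.c_e 0 (by omega), h.c_e 0 (by omega)]
    simp
  · intro j _ hj
    rw [h.hA, map_add, map_smul, h.c_e 0 (by omega), h.c_e 0 (by omega), if_neg (by omega),
      if_neg (by omega)]
    simp
  · intro h0; simp at h0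

theorem c_A_succ (h : Spl A B d a b Φ e c) (i : ℕ) (hi : i + 1 ≤ d) (v : V) :
    c (i + 1) (A v) = a (i + 1) • c (i + 1) v + c i v := by
  conv_lhs => rw [← h.sum v]
  rw [map_sum, map_sum]
  have h1 : ∀ j ∈ Finset.range (d + 1), c (i + 1) (A (e j (c j v))) =
      (if i + 1 = j then a (i + 1) • c (i + 1) v else 0) + (if i = j then c i v else 0) := by
    intro j _
    rw [h.hA, map_add, map_smul, h.c_e _ hi, h.c_e _ hi]
    congr 1
    · split_ifs with hh
      · subst hh; rfl
      · rw [smul_zero]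
    · by_cases hh : i = j
      · subst hh; simp
      · rw [if_neg (by omega), if_neg hh]
  rw [Finset.sum_congr rfl h1, Finset.sum_add_distrib, Finset.sum_ite_eq, Finset.sum_ite_eq,
    if_pos (Finset.mem_range.mpr (by omega)), if_pos (Finset.mem_range.mpr (by omega))]

theorem c_B (h : Spl A B d a b Φ e c) (i : ℕ) (hi : i ≤ d) (v : V) :
    c i (B v) = b i • c i v + Φ (i + 1) (c (i + 1) v) := by
  conv_lhs => rw [← h.sum v]
  rw [map_sum, map_sum]
  have h1 : ∀ j ∈ Finset.range (d + 1), c i (B (e j (c j v))) =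
      (if i = j then b i • c i v else 0) + (if i + 1 = j then Φ (i + 1) (c (i + 1) v) else 0) := by
    intro j _
    rcases j with _ | j
    · rw [h.hB0, map_smul, h.c_e _ hi]
      by_cases hh : i = 0
      · subst hh; simp
      · rw [if_neg hh, if_neg hh]; simp
    · rw [h.hB, map_add, map_smul, h.c_e _ hi, h.c_e _ hi]
      congr 1
      · split_ifs with hh
        · subst hh; rfl
        · rw [smul_zero]
      · by_cases hh : i = j
        · subst hh; simp
        · rw [if_neg (by omega), if_neg (by omega)]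
  rw [Finset.sum_congr rfl h1, Finset.sum_add_distrib, Finset.sum_ite_eq, Finset.sum_ite_eq,
    if_pos (Finset.mem_range.mpr (by omega))]
  by_cases hi' : i + 1 ≤ d
  · rw [if_pos (Finset.mem_range.mpr (by omega))]
  · rw [if_neg (by simp; omega), h.c_gt (i + 1) (by omega)]
    simp

end Spl

end Pool.Agent.Helper9.TD
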