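import Pool.Agent.H370.G.R_seed8.Helper9.TDFlip

set_option autoImplicit false

namespace Pool.Agent.Helper9.TD

open Polynomial Module

section

variable {K : Type*} [Field K]

theorem Rec.hom {β γ : K} {a : ℤ → K} (h : Rec β γ a) (d : ℤ) (i : ℤ) :
    (a i - a (d - i)) - β * (a (i + 1) - a (d - (i + 1))) + (a (i + 2) - a (d - (i + 2))) = 0 := by
  have h1 := h (i + 1)
  have h2 := h (d - (i + 1))
  have c1 : (i : ℤ) + 1 - 1 = i := by ring
  have c2 : (i : ℤ) + 1 + 1 = i + 2 := by ring
  have c3 : (d : ℤ) - (i + 1) - 1 = d - (i + 2) := by ring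
  have c4 : (d : ℤ) - (i + 1) + 1 = d - i := by ring
  rw [c1, c2] at h1
  rw [c3, c4] at h2
  linear_combination h1 - h2

/-- the center lemma -/
theorem center {β γ γs : K} {a b : ℤ → K} (ha : Rec β γ a) (hb : Rec β γs b) (d : ℕ) (h : ℕ) :
    (a h - a (d - h)) * (b 0 - b d) = (b h - b (d - h)) * (a 0 - a d) := by
  have hW : ∀ m : ℕ, (a m - a (d - m)) * (b (m + 1) - b (d - (m + 1))) -
      (a (m + 1) - a (d - (m + 1))) * (b m - b (d - m)) =
      (a 0 - a d) * (b 1 - b (d - 1)) - (a 1 - a (d - 1)) * (b 0 - b d) := by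
    intro m
    induction m with
    | zero => simp
    | succ m ih =>
      rw [← ih]
      have h1 := ha.hom d m
      have h2 := hb.hom d m
      have c2 : (m : ℤ) + 1 + 1 = m + 2 := by ring
      push_cast
      rw [c2]
      linear_combination (a (m + 1) - a (d - (m + 1))) * h2 - (b (m + 1) - b (d - (m + 1))) * h1
  have hW0 : (a 0 - a d) * (b 1 - b (d - 1)) - (a 1 - a (d - 1)) * (b 0 - b d) = 0 := by
    rcases Nat.even_or_odd d with ⟨m, hm⟩ | ⟨m, hm⟩
    · rw [← hW m]
      have e1 : (d : ℤ) - m = m := by omega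
      rw [e1]; ring
    · rw [← hW m]
      have e1 : (d : ℤ) - m = m + 1 := by omega
      have e2 : (d : ℤ) - (m + 1) = m := by omega
      rw [e1, e2]; ring
  have hboth : ∀ h : ℕ, (a h - a (d - h)) * (b 0 - b d) = (b h - b (d - h)) * (a 0 - a d) ∧
      (a (h + 1) - a (d - (h + 1))) * (b 0 - b d) = (b (h + 1) - b (d - (h + 1))) * (a 0 - a d) := by
    intro h
    induction h with
    | zero =>
      constructor
      · simp; ring
      · simp only [Nat.cast_zero, zero_add]
        linear_combination -hW0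
    | succ h ih =>
      refine ⟨by push_cast; exact ih.2, ?_⟩
      have h1 := ha.hom d h
      have h2 := hb.hom d h
      have c2 : (h : ℤ) + 1 + 1 = h + 2 := by ring
      push_cast
      rw [c2]
      linear_combination β * ih.2 - ih.1 + (b 0 - b d) * h1 - (a 0 - a d) * h2
  exact (hboth h).1

theorem thZ_ab {β γ γs : K} {a b : ℤ → K} (ha : Rec β γ a) (hb : Rec β γs b) (d : ℕ)
    (had : a 0 ≠ a d) (hbd : b 0 ≠ b d) (i : ℕ) : thZ d a i = thZ d b i := by
  have h1 : a 0 - a d ≠ 0 := sub_ne_zero.mpr had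
  have h2 : b 0 - b d ≠ 0 := sub_ne_zero.mpr hbd
  rw [thZ, thZ, div_eq_div_iff h1 h2, Finset.sum_mul, Finset.sum_mul]
  exact Finset.sum_congr rfl fun h _ => center ha hb d h

theorem thZ_anti (d : ℕ) (a : ℤ → K) (j : ℕ) (hj : j ≤ d + 1) :
    thZ d a (d + 1 - j) = thZ d a j := by
  induction j with
  | zero => rw [Nat.sub_zero, thZ_last, thZ_zero]
  | succ j ih =>
    have h1 := ih (by omega)
    obtain ⟨m, hm⟩ : ∃ m, d + 1 - j = m + 1 := ⟨d - j, by omega⟩
    have hm2 : d + 1 - (j + 1) = m := by omega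
    rw [hm2]
    rw [hm] at h1
    rw [thZ_succ] at h1 ⊢
    rw [← h1]
    have e1 : (m : ℤ) = d - j := by omega
    have e2 : (d : ℤ) - m = j := by omega
    rw [e2, e1]
    ring

end

section

variable {K : Type*} [Field K] {V : Type*} [AddCommGroup V] [Module K V]
variable {U : Type*} [AddCommGroup U] [Module K U]

variable {A B : Module.End K V} {d : ℕ} {a b : ℤ → K} {S : Module.End K U}
    {e : ℕ → U →ₗ[K] V} {c : ℕ → V →ₗ[K] U}

theorem phiZ_inj (hS : IsSimpleOp S) (hU : 2 ≤ finrank K U)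
    (ha : ∀ i : ℕ, i < d → a i ≠ a d) (hb : ∀ i : ℕ, 1 ≤ i → i ≤ d → b i ≠ b 0) (i : ℕ) (hi : 1 ≤ i)
    (hid : i ≤ d) (x : U) (hx : phiZ d a b S i x = 0) : x = 0 := by
  by_contra hx0
  rw [phiZ_apply] at hx
  by_cases hth : thZ d a i = 0
  · rw [hth, zero_smul, zero_add] at hx
    rcases smul_eq_zero.mp hx with h1 | h1
    · rw [kap] at h1
      rcases mul_eq_zero.mp h1 with h2 | h2
      · exact hb i hi hid (sub_eq_zero.mp h2)
      · have h3 := ha (i - 1) (by omega)
        have e1 : ((i - 1 : ℕ) : ℤ) = i - 1 := by omega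
        rw [e1] at h3
        exact h3 (sub_eq_zero.mp h2)
    · exact hx0 h1
  · refine hS.not_scalar (finrank K U) hU rfl x hx0 (-((thZ d a i)⁻¹ * kap d a b i)) ?_
    have h1 : S x = (thZ d a i)⁻¹ • (thZ d a i • S x) := by
      rw [smul_smul, inv_mul_cancel₀ hth, one_smul]
    rw [h1, eq_neg_of_add_eq_zero_left hx, smul_neg, smul_smul, neg_smul]

theorem phiZ_comm (S : Module.End K U) (i j : ℕ) :
    phiZ d a b S i * phiZ d a b S j = phiZ d a b S j * phiZ d a b S i := by
  ext x
  simp only [Module.End.mul_apply, phiZ_apply, map_add, map_smul]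
  module

/-- iterated products -/
def MM (d : ℕ) (Φ : ℕ → Module.End K U) : ℕ → Module.End K U
  | 0 => 1
  | (j + 1) => Φ (d - j) * MM d Φ j

theorem MM_comm (Φ : ℕ → Module.End K U) (hΦ : ∀ i j, Φ i * Φ j = Φ j * Φ i) (j i : ℕ) :
    Φ i * MM d Φ j = MM d Φ j * Φ i := by
  induction j with
  | zero => simp [MM]
  | succ j ih => rw [MM, ← mul_assoc, hΦ, mul_assoc, ih, mul_assoc]

theorem Spl.swap [FiniteDimensional K U] {β γ γs : K} (ha : Rec β γ a) (hb : Rec β γs b)
    (had : a 0 ≠ a d) (hbd : b 0 ≠ b d)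
    (hinj : ∀ i, 1 ≤ i → i ≤ d → ∀ x, phiZ d a b S i x = 0 → x = 0)
    (h : Spl A B d (fun i => a i) (fun i => b i) (phiZ d a b S) e c) :
    ∃ (f : ℕ → U →ₗ[K] V) (g : ℕ → V →ₗ[K] U),
      Spl B A d (fun i => b (d - i)) (fun i => a (d - i))
        (phiZ d (fun j => b (d - j)) (fun j => a (d - j)) S) f g := by
  have hfin := h.finDim
  set Φ := phiZ d a b S with hΦ
  have hcomm : ∀ i j, Φ i * Φ j = Φ j * Φ i := fun i j => phiZ_comm S i j
  have hMinj : ∀ j, j ≤ d → ∀ x, MM d Φ j x = 0 → x = 0 := by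
    intro j
    induction j with
    | zero => intro _ x hx; simpa [MM] using hx
    | succ j ih =>
      intro hj x hx
      rw [MM, Module.End.mul_apply] at hx
      exact ih (by omega) x (hinj (d - j) (by omega) (by omega) _ hx)
  let f : ℕ → U →ₗ[K] V := fun j => if j ≤ d then e (d - j) ∘ₗ MM d Φ j else 0
  have hf : ∀ j, j ≤ d → ∀ x, f j x = e (d - j) (MM d Φ j x) := by
    intro j hj x
    simp only [f, if_pos hj, LinearMap.comp_apply]
  have hf0 : ∀ j, d < j → f j = 0 := by
    intro j hj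
    simp only [f]
    rw [if_neg (by omega)]
  have hbij : Function.Bijective (chainMap d f) := by
    have hinj' : Function.Injective (chainMap d f) := by
      rw [← LinearMap.ker_eq_bot, LinearMap.ker_eq_bot']
      intro x hx
      funext j
      rw [chainMap_apply] at hx
      have h1 := congrArg (c (d - j)) hx
      rw [map_zero, map_sum, Finset.sum_eq_single j] at h1
      · rw [hf j (by omega), h.c_e (d - j) (by omega), if_pos rfl] at h1
        exact hMinj j (by omega) _ h1
      · intro k _ hk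
        rw [hf k (by omega), h.c_e (d - j) (by omega), if_neg]
        intro h2
        apply hk
        apply Fin.ext
        have := j.isLt
        have := k.isLt
        omega
      · intro h2
        exact absurd (Finset.mem_univ _) h2
    exact ⟨hinj', (LinearMap.injective_iff_surjective_of_finrank_eq_finrank h.finrank).mp hinj'⟩
  obtain ⟨g, hg1, hg2, hg3⟩ := exists_coords d f hf0 hbij
  refine ⟨f, g, ?_, ?_, ?_, hf0, hg1, hg2, hg3⟩
  · intro j x
    by_cases hj : j ≤ d
    · rw [hf j hj]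
      have e1 : (d : ℤ) - j = ((d - j : ℕ) : ℤ) := by omega
      rw [e1]
      by_cases hjd : j = d
      · subst hjd
        rw [hf0 (j + 1) (by omega), Nat.sub_self]
        simpa using h.hB0 _
      · obtain ⟨m, hm⟩ : ∃ m, d - j = m + 1 := ⟨d - j - 1, by omega⟩
        rw [hf (j + 1) (by omega), hm, h.hB]
        have e2 : d - (j + 1) = m := by omega
        rw [e2, MM, Module.End.mul_apply, hm]
    · rw [hf0 j (by omega), hf0 (j + 1) (by omega)]
      simp
  · intro x
    rw [hf 0 (by omega)]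
    simp only [Nat.sub_zero]
    have h1 := h.hA d (MM d Φ 0 x)
    rw [h.e_gt (d + 1) (by omega)] at h1
    simpa using h1
  · intro j x
    by_cases hj : j + 1 ≤ d
    · rw [hf (j + 1) hj, hf j (by omega), h.hA]
      have e1 : (d : ℤ) - ((j + 1 : ℕ) : ℤ) = ((d - (j + 1) : ℕ) : ℤ) := by omega
      have e2 : d - (j + 1) + 1 = d - j := by omega
      rw [e1, e2]
      congr 2
      have e3 : phiZ d (fun j => b (d - j)) (fun j => a (d - j)) S (j + 1) x = Φ (d - j) x := by
        rw [hΦ, phiZ_apply, phiZ_apply, thZ_rev, ← thZ_ab ha hb d had hbd, ← thZ_anti d a (j + 1) (by omega)]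
        have e4 : d + 1 - (j + 1) = d - j := by omega
        rw [e4]
        congr 2
        simp only [kap]
        have e5 : (d : ℤ) - ((j + 1 : ℕ) : ℤ) = ((d - j : ℕ) : ℤ) - 1 := by omega
        have e6 : (d : ℤ) - (((j + 1 : ℕ) : ℤ) - 1) = ((d - j : ℕ) : ℤ) := by omega
        rw [e5, e6]
        simp only [sub_zero, sub_self]
        ring
      rw [e3, MM, MM_comm Φ hcomm, Module.End.mul_apply]
    · rw [hf0 (j + 1) (by omega)]
      by_cases hjd : j = d
      · subst hjd
        have e3 : phiZ j (fun i => b (j - i)) (fun i => a (j - i)) S (j + 1) x = 0 := by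
          rw [phiZ_apply, thZ_last]
          simp [kap]
        rw [e3]
        simp
      · rw [hf0 j (by omega)]
        simp

end

end Pool.Agent.Helper9.TD
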